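import Pool.Agent.H458.AR.Num

/-!
# Project AR of helper458, part PRM: primes one modulo eight, `p_N ≤ N ^ 2` for infinitely many `N`
-/

set_option autoImplicit false
set_option linter.all false

open scoped Classical

namespace Pool.Agent.H996.AR458

open Pool.Agent.N922.PQ (IsPr GoodS)
open Pool.Agent.H458.AR

/-- the primes -/
def PP (T : Finset ℤ) (p : ℕ) : Prop := p.Prime ∧ (p : ZMod 8) = 1 ∧ (p : ℤ) ∉ T

theorem T_finite (T : Finset ℤ) : {p : ℕ | (p : ℤ) ∈ T}.Finite :=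
  (T.finite_toSet).preimage (Nat.cast_injective.injOn)

theorem PP_infinite (T : Finset ℤ) : (setOf (PP T)).Infinite := by
  have h1 : {p : ℕ | p.Prime ∧ (p : ZMod 8) = 1}.Infinite :=
    Nat.infinite_setOfPred_prime_and_eq_mod isUnit_one
  refine (h1.diff (T_finite T)).mono ?_
  intro p hp
  exact ⟨hp.1.1, hp.1.2, hp.2⟩

/-- a nonresidue -/
theorem exists_s (Q : ℤ) : ∃ a : ℤ, IsPr Q → Q % 8 = 1 → ∀ z : ℤ, ¬ Q ∣ z ^ 2 + a := by
  by_cases h : IsPr Q ∧ Q % 8 = 1
  swap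
  · exact ⟨0, fun h1 h2 => absurd ⟨h1, h2⟩ h⟩
  obtain ⟨⟨h0, hp⟩, h8⟩ := h
  obtain ⟨p, rfl⟩ := Int.eq_ofNat_of_zero_le h0.le
  have hp' : p.Prime := Nat.prime_iff_prime_int.2 hp
  have _ : Fact p.Prime := ⟨hp'⟩
  have h2 : ringChar (ZMod p) ≠ 2 := by
    rw [ZMod.ringChar_zmod_n]
    rintro rfl
    norm_num at h8
  obtain ⟨a, ha⟩ := FiniteField.exists_nonsquare h2
  refine ⟨-(a.val : ℤ), fun _ _ z hz => ha ?_⟩
  rw [← ZMod.intCast_zmod_eq_zero_iff_dvd] at hz
  push_cast at hz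
  rw [ZMod.natCast_zmod_val] at hz
  exact ⟨(z : ZMod p), by linear_combination -hz⟩

/-- infinitely many small primes -/
theorem exists_small (T : Finset ℤ) (N₀ : ℕ) : ∃ N ≥ N₀, Nat.nth (PP T) N ≤ N ^ 2 := by
  by_contra hcon
  push Not at hcon
  have hinf := PP_infinite T
  refine ArithmeticFunction.vonMangoldt.not_summable_residueClass_prime_div (q := 8) (a := 1)
    isUnit_one ?_
  obtain ⟨f, hf⟩ : ∃ f : ℕ → ℝ, f = fun n : ℕ => (if n.Prime then
    ArithmeticFunction.vonMangoldt.residueClass (1 : ZMod 8) n else 0) / n := ⟨_, rfl⟩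
  rw [← hf]
  have hf0 : ∀ n : ℕ, ¬ (n.Prime ∧ (n : ZMod 8) = 1) → f n = 0 := by
    intro n hn
    rw [hf]
    simp only
    by_cases h1 : n.Prime
    · rw [if_pos h1]
      have h2 : (n : ZMod 8) ≠ 1 := fun h => hn ⟨h1, h⟩
      have h3 : ArithmeticFunction.vonMangoldt.residueClass (1 : ZMod 8) n = 0 :=
        Set.indicator_of_notMem (s := {n : ℕ | (n : ZMod 8) = 1}) h2 _
      rw [h3, zero_div]
    · rw [if_neg h1, zero_div]
  have hf1 : ∀ n : ℕ, n.Prime → (n : ZMod 8) = 1 → f n = Real.log n / n := by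
    intro n h1 h2
    rw [hf]
    simp only
    rw [if_pos h1]
    have h3 : ArithmeticFunction.vonMangoldt.residueClass (1 : ZMod 8) n =
        ArithmeticFunction.vonMangoldt n :=
      Set.indicator_of_mem (s := {n : ℕ | (n : ZMod 8) = 1}) h2 _
    rw [h3, ArithmeticFunction.vonMangoldt_apply_prime h1]
  -- the part outside `T`
  obtain ⟨g, hg⟩ : ∃ g : ℕ → ℝ, g = fun n => if PP T n then f n else 0 := ⟨_, rfl⟩
  have hfg : ∀ n, n ∉ {p : ℕ | (p : ℤ) ∈ T} → f n = g n := by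
    intro n hn
    rw [hg]
    simp only
    split_ifs with h
    · rfl
    · exact hf0 n fun h1 => h ⟨h1.1, h1.2, hn⟩
  have hsg : Summable g := by
    have hi : Function.Injective (Nat.nth (PP T)) := Nat.nth_injective hinf
    rw [← hi.summable_iff]
    · refine Summable.of_norm_bounded_eventually_nat
        (g := fun N : ℕ => 4 * (1 / (N : ℝ) ^ (3 / 2 : ℝ))) ((Real.summable_one_div_nat_rpow.2 (by norm_num)).mul_left 4) ?_
      rw [Filter.eventually_atTop]
      refine ⟨max N₀ 1, fun N hN => ?_⟩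
      have hN0 : N₀ ≤ N := (le_max_left _ _).trans hN
      have hN1 : 1 ≤ N := (le_max_right _ _).trans hN
      have h1 := hcon N hN0
      have h2 : PP T (Nat.nth (PP T) N) := Nat.nth_mem_of_infinite hinf N
      obtain ⟨p, hp⟩ : ∃ p, p = Nat.nth (PP T) N := ⟨_, rfl⟩
      rw [Function.comp_apply]
      rw [← hp] at h1 h2 ⊢
      have h3 : g p = Real.log p / p := by
        rw [hg]
        simp only
        rw [if_pos h2, hf1 p h2.1 h2.2.1]
      have hp1 : (1 : ℝ) ≤ p := by exact_mod_cast h2.1.one_lt.le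
      have hp0 : (0 : ℝ) < p := by linarith
      have h4 : 0 ≤ Real.log p / p := div_nonneg (Real.log_nonneg hp1) hp0.le
      rw [h3, Real.norm_of_nonneg h4]
      have h5 : Real.log p ≤ 4 * (p : ℝ) ^ (1 / 4 : ℝ) := by
        have h6 := Real.log_le_rpow_div hp0.le (by norm_num : (0 : ℝ) < 1 / 4)
        linarith
      have hNp : ((N : ℝ) ^ 2) ≤ p := by exact_mod_cast h1.le
      have hNR : (1 : ℝ) ≤ N := by exact_mod_cast hN1
      have hN00 : (0 : ℝ) < N := by linarith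
      have h7 : (N : ℝ) ^ (3 / 2 : ℝ) ≤ (p : ℝ) ^ (3 / 4 : ℝ) := by
        have h8 : (N : ℝ) ^ (3 / 2 : ℝ) = ((N : ℝ) ^ 2) ^ (3 / 4 : ℝ) := by
          rw [← Real.rpow_natCast (N : ℝ) 2, ← Real.rpow_mul hN00.le]
          norm_num
        rw [h8]
        exact Real.rpow_le_rpow (by positivity) hNp (by norm_num)
      have h9 : (p : ℝ) = (p : ℝ) ^ (1 / 4 : ℝ) * (p : ℝ) ^ (3 / 4 : ℝ) := by
        rw [← Real.rpow_add hp0]
        norm_num
      have h10 : 0 < (p : ℝ) ^ (1 / 4 : ℝ) := Real.rpow_pos_of_pos hp0 _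
      have h11 : 0 < (p : ℝ) ^ (3 / 4 : ℝ) := Real.rpow_pos_of_pos hp0 _
      have h12 : 0 < (N : ℝ) ^ (3 / 2 : ℝ) := Real.rpow_pos_of_pos hN00 _
      calc Real.log p / p ≤ 4 * (p : ℝ) ^ (1 / 4 : ℝ) / p := by gcongr
        _ = 4 * (p : ℝ) ^ (1 / 4 : ℝ) / ((p : ℝ) ^ (1 / 4 : ℝ) * (p : ℝ) ^ (3 / 4 : ℝ)) := by
            rw [← h9]
        _ = 4 * (1 / (p : ℝ) ^ (3 / 4 : ℝ)) := by
            field_simp
        _ ≤ 4 * (1 / (N : ℝ) ^ (3 / 2 : ℝ)) := by gcongr
    · intro n hn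
      rw [Nat.range_nth_of_infinite hinf] at hn
      rw [hg]
      simp only
      exact if_neg hn
  have h1 : Summable (fun n => f n - g n) := by
    refine summable_of_hasFiniteSupport ((T_finite T).subset ?_)
    intro n hn
    by_contra h
    exact hn (by simp only [hfg n h, sub_self])
  refine (h1.add hsg).congr fun n => ?_
  ring

/-- **PRM.** -/
theorem prm : S_PRM := by
  intro T e m₀ he
  choose s hs using exists_s
  obtain ⟨N, hN, hsm⟩ := exists_small T ((max m₀ 1) ^ e)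
  have hinf := PP_infinite T
  -- the root of `N`
  have hex : ∃ k : ℕ, N < k ^ e := ⟨N + 1, by
    calc N < N + 1 := Nat.lt_succ_self N
      _ = (N + 1) ^ 1 := (pow_one _).symm
      _ ≤ (N + 1) ^ e := Nat.pow_le_pow_right (Nat.succ_pos N) he⟩
  obtain ⟨k, hk, hkmin⟩ : ∃ k, N < k ^ e ∧ ∀ j < k, ¬ N < j ^ e :=
    ⟨Nat.find hex, Nat.find_spec hex, fun j hj => Nat.find_min hex hj⟩
  have hk0 : max m₀ 1 < k := by
    by_contra h
    push Not at h
    have h1 := Nat.pow_le_pow_left h e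
    omega
  obtain ⟨m, rfl⟩ : ∃ m, k = m + 1 := ⟨k - 1, by omega⟩
  have hmN : m ^ e ≤ N := not_lt.1 (hkmin m (Nat.lt_succ_self m))
  have hm : max m₀ 1 ≤ m := Nat.lt_succ_iff.1 hk0
  have hm0 : m₀ ≤ m := (le_max_left _ _).trans hm
  have hm1 : 1 ≤ m := (le_max_right _ _).trans hm
  have hi : Function.Injective (fun j : ℕ => (Nat.nth (PP T) j : ℤ)) := fun i j h =>
    Nat.nth_injective hinf (Nat.cast_injective h)
  refine ⟨m, hm0, (Finset.range (m ^ e)).image (fun j : ℕ => (Nat.nth (PP T) j : ℤ)), s, ?_, ?_,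
    ?_, ?_⟩
  · intro Q hQ
    obtain ⟨j, hj, rfl⟩ := Finset.mem_image.1 hQ
    have h1 : PP T (Nat.nth (PP T) j) := Nat.nth_mem_of_infinite hinf j
    have h2 : IsPr ((Nat.nth (PP T) j : ℕ) : ℤ) :=
      ⟨by exact_mod_cast h1.1.pos, Nat.prime_iff_prime_int.1 h1.1⟩
    have h3 : ((Nat.nth (PP T) j : ℕ) : ℤ) % 8 = 1 := by
      have h4 : ((Nat.nth (PP T) j : ℕ) : ZMod 8) = ((1 : ℕ) : ZMod 8) := by
        rw [h1.2.1, Nat.cast_one]
      rw [ZMod.natCast_eq_natCast_iff] at h4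
      have h5 : Nat.nth (PP T) j % 8 = 1 := h4
      omega
    exact ⟨h2, h3, hs _ h2 h3⟩
  · rw [Finset.card_image_of_injective _ hi, Finset.card_range]
  · rw [Finset.disjoint_left]
    intro Q hQ hT
    obtain ⟨j, hj, rfl⟩ := Finset.mem_image.1 hQ
    exact (Nat.nth_mem_of_infinite hinf j).2.2 hT
  · intro Q hQ
    obtain ⟨j, hj, rfl⟩ := Finset.mem_image.1 hQ
    rw [Finset.mem_range] at hj
    have h1 : Nat.nth (PP T) j ≤ Nat.nth (PP T) N :=
      (Nat.nth_strictMono hinf).monotone (by omega)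
    have h2 : N ^ 2 ≤ (2 * m) ^ (2 * e) := by
      have h3 : N ≤ (2 * m) ^ e := by
        refine hk.le.trans (Nat.pow_le_pow_left ?_ e)
        omega
      calc N ^ 2 ≤ ((2 * m) ^ e) ^ 2 := Nat.pow_le_pow_left h3 2
        _ = (2 * m) ^ (2 * e) := by
            rw [← pow_mul]
            congr 1
            ring
    exact_mod_cast (h1.trans hsm).trans h2

end Pool.Agent.H996.AR458
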